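import Pool.Agent.Y63.NV.Stm

/-!
# Project NV, job IRR: irreducible traces are linearly independent and finite in number
-/

set_option autoImplicit false

namespace Pool.Agent.Y914.NV

open Pool.Agent.Y63.NV Representation
open scoped MonoidAlgebra

section dens

variable {A : Type*} [Ring A] {V W : Type*} [AddCommGroup V] [Module A V] [AddCommGroup W]
  [Module A W]

lemma ss_prod [IsSimpleModule A V] [IsSimpleModule A W] : IsSemisimpleModule A (V × W) := by
  have h1 : IsSemisimpleModule A (LinearMap.range (LinearMap.inl A V W)) :=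
    IsSemisimpleModule.range _
  have h2 : IsSemisimpleModule A (LinearMap.range (LinearMap.inr A V W)) :=
    IsSemisimpleModule.range _
  have h3 := IsSemisimpleModule.sup h1 h2
  rw [LinearMap.sup_range_inl_inr] at h3
  exact IsSemisimpleModule.congr (Submodule.topEquiv (R := A) (M := V × W)).symm

/-- the projection to the first factor commutes with all endomorphisms -/
def fstMap [IsSimpleModule A V] [IsSimpleModule A W] (h : IsEmpty (V ≃ₗ[A] W)) :
    Module.End (Module.End A (V × W)) (V × W) where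
  toFun x := (x.1, 0)
  map_add' x y := by simp
  map_smul' e x := by
    have h12 : (LinearMap.fst A V W) ∘ₗ e ∘ₗ (LinearMap.inr A V W) = 0 := by
      rcases LinearMap.bijective_or_eq_zero
        ((LinearMap.fst A V W) ∘ₗ e ∘ₗ (LinearMap.inr A V W)) with hb | hb
      · exact (h.false (LinearEquiv.ofBijective _ hb).symm).elim
      · exact hb
    have h21 : (LinearMap.snd A V W) ∘ₗ e ∘ₗ (LinearMap.inl A V W) = 0 := by
      rcases LinearMap.bijective_or_eq_zero
        ((LinearMap.snd A V W) ∘ₗ e ∘ₗ (LinearMap.inl A V W)) with hb | hb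
      · exact (h.false (LinearEquiv.ofBijective _ hb)).elim
      · exact hb
    have e1 : (e (0, x.2)).1 = 0 := LinearMap.congr_fun h12 x.2
    have e2 : (e (x.1, 0)).2 = 0 := LinearMap.congr_fun h21 x.1
    have e3 : e x = e (x.1, 0) + e (0, x.2) := by
      rw [← map_add]
      simp
    show ((e x).1, (0 : W)) = e (x.1, 0)
    rw [e3]
    ext
    · simp [e1]
    · simp [e2]

end dens

section alg

variable {F : Type} [Field F] [IsAlgClosed F] {A : Type} [Ring A] [Algebra F A]
  {V W : Type} [AddCommGroup V] [Module F V] [Module A V] [IsScalarTower F A V]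
  [AddCommGroup W] [Module F W] [Module A W] [IsScalarTower F A W]

lemma pair [FiniteDimensional F V] [FiniteDimensional F W] [IsSimpleModule A V]
    [IsSimpleModule A W] (h : IsEmpty (V ≃ₗ[A] W)) :
    ∃ a : A, (∀ v : V, a • v = v) ∧ ∀ w : W, a • w = 0 := by
  classical
  have := ss_prod (A := A) (V := V) (W := W)
  obtain ⟨s, hs⟩ := (inferInstance : Module.Finite F (V × W)).fg_top
  obtain ⟨a, ha⟩ := jacobson_density (R := A) (fstMap h) s
  have hlin : ∀ x : V × W, a • x = (x.1, 0) := by
    intro x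
    have hx : x ∈ Submodule.span F (s : Set (V × W)) := by rw [hs]; trivial
    induction hx using Submodule.span_induction with
    | mem m hm => exact (ha m hm).symm
    | zero => rw [smul_zero]; rfl
    | add x y _ _ hx hy => rw [smul_add, hx, hy]; simp
    | smul c x _ hx =>
      rw [smul_comm, hx]
      ext <;> simp
  refine ⟨a, fun v => ?_, fun w => ?_⟩
  · exact congrArg Prod.fst (hlin (v, 0))
  · exact congrArg Prod.snd (hlin (0, w))

/-- Burnside -/
lemma burn [FiniteDimensional F V] [IsSimpleModule A V] (P : V →ₗ[F] V) :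
    ∃ a : A, ∀ v : V, a • v = P v := by
  classical
  have hS := IsSimpleModule.algebraMap_end_bijective_of_isAlgClosed (A := A) (V := V) F
  let f : Module.End (Module.End A V) V :=
    { toFun := P
      map_add' := P.map_add
      map_smul' := by
        intro e x
        obtain ⟨c, rfl⟩ := hS.2 e
        show P ((algebraMap F (Module.End A V) c) x) = (algebraMap F (Module.End A V) c) (P x)
        rw [Module.algebraMap_end_apply, Module.algebraMap_end_apply, map_smul] }
  obtain ⟨s, hs⟩ := (inferInstance : Module.Finite F V).fg_top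
  obtain ⟨a, ha⟩ := jacobson_density (R := A) f s
  refine ⟨a, fun x => ?_⟩
  have hx : x ∈ Submodule.span F (s : Set V) := by rw [hs]; trivial
  induction hx using Submodule.span_induction with
  | mem m hm => exact (ha m hm).symm
  | zero => simp
  | add x y _ _ hx hy => rw [smul_add, hx, hy, map_add]
  | smul c x _ hx => rw [smul_comm, hx, map_smul]

end alg

section grp

variable {F : Type} [Field F] [IsAlgClosed F] {N : Type} [Group N] [Finite N]

/-- `x` acts as zero on a module with trace function `ψ` -/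
def Kill (ψ : N → F) (x : F[N]) : Prop :=
  ∃ (V : Type) (_ : AddCommGroup V) (_ : Module F V) (_ : FiniteDimensional F V)
    (ρ : Representation F N V), ρ.IsIrreducible ∧ ψ = ρ.character ∧ ρ.asAlgebraHom x = 0

omit [IsAlgClosed F] [Finite N] in
lemma Kill.mul_left {ψ : N → F} {x : F[N]} (h : Kill ψ x) (y : F[N]) : Kill ψ (y * x) := by
  obtain ⟨V, i1, i2, i3, ρ, h1, h2, h3⟩ := h
  exact ⟨V, i1, i2, i3, ρ, h1, h2, by rw [map_mul, h3, mul_zero]⟩

omit [IsAlgClosed F] [Finite N] in
lemma Kill.mul_right {ψ : N → F} {x : F[N]} (h : Kill ψ x) (y : F[N]) : Kill ψ (x * y) := by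
  obtain ⟨V, i1, i2, i3, ρ, h1, h2, h3⟩ := h
  exact ⟨V, i1, i2, i3, ρ, h1, h2, by rw [map_mul, h3, zero_mul]⟩

omit [IsAlgClosed F] [Finite N] in
lemma act {V : Type} [AddCommGroup V] [Module F V] (ρ : Representation F N V) (x : F[N])
    (v : V) : ρ.asAlgebraHom x v = ρ.asModuleEquiv (x • ρ.asModuleEquiv.symm v) := by
  rw [asModuleEquiv_map_smul, LinearEquiv.apply_symm_apply]

omit [IsAlgClosed F] [Finite N] in
lemma noniso {V W : Type} [AddCommGroup V] [Module F V] [AddCommGroup W]
    [Module F W] (ρ : Representation F N V) (σ : Representation F N W)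
    (h : ρ.character ≠ σ.character) : IsEmpty (ρ.asModule ≃ₗ[F[N]] σ.asModule) := by
  refine ⟨fun e => h ?_⟩
  funext g
  let e2 : V ≃ₗ[F] W := ρ.asModuleEquiv.symm.trans ((e.restrictScalars F).trans σ.asModuleEquiv)
  have h1 : ∀ v : V, e2 (ρ g v) = σ g (e2 v) := by
    intro v
    show σ.asModuleEquiv (e (ρ.asModuleEquiv.symm (ρ g v))) =
      σ g (σ.asModuleEquiv (e (ρ.asModuleEquiv.symm v)))
    rw [asModuleEquiv_symm_map_rho, map_smul, asModuleEquiv_map_smul, asAlgebraHom_of]
  have h2 : σ g = e2.conj (ρ g) := by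
    ext w
    rw [LinearEquiv.conj_apply_apply, h1, LinearEquiv.apply_symm_apply]
  rw [character, character, h2, LinearMap.trace_conj']

lemma pairK {V : Type} [AddCommGroup V] [Module F V] [FiniteDimensional F V]
    (ρ : Representation F N V) (hρ : ρ.IsIrreducible) (ψ : N → F) (hψ : IsIrrTrace ψ)
    (hne : ψ ≠ ρ.character) : ∃ x : F[N], ρ.asAlgebraHom x = 1 ∧ Kill ψ x := by
  obtain ⟨W, i1, i2, i3, σ, hσ, rfl⟩ := hψ
  have := hρ
  have := hσ
  obtain ⟨a, ha, hb⟩ := pair (F := F) (A := F[N]) (noniso ρ σ (Ne.symm hne))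
  refine ⟨a, ?_, W, i1, i2, i3, σ, hσ, rfl, ?_⟩
  · ext v
    rw [act, ha, LinearEquiv.apply_symm_apply, Module.End.one_apply]
  · ext v
    rw [act, hb, map_zero, LinearMap.zero_apply]

lemma manyK {V : Type} [AddCommGroup V] [Module F V] [FiniteDimensional F V]
    (ρ : Representation F N V) (hρ : ρ.IsIrreducible) (s : Finset (N → F)) :
    (∀ ψ ∈ s, IsIrrTrace ψ ∧ ψ ≠ ρ.character) →
      ∃ x : F[N], ρ.asAlgebraHom x = 1 ∧ ∀ ψ ∈ s, Kill ψ x := by
  classical
  induction s using Finset.induction_on with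
  | empty => exact fun _ => ⟨1, map_one _, fun ψ h => absurd h (Finset.notMem_empty _)⟩
  | insert φ s _ ih =>
    intro h
    obtain ⟨x, hx1, hx2⟩ := ih fun ψ hψ => h ψ (Finset.mem_insert_of_mem hψ)
    obtain ⟨y, hy1, hy2⟩ := pairK ρ hρ φ (h φ (Finset.mem_insert_self _ _)).1
      (h φ (Finset.mem_insert_self _ _)).2
    refine ⟨x * y, by rw [map_mul, hx1, hy1, mul_one], fun ψ hψ => ?_⟩
    rcases Finset.mem_insert.1 hψ with rfl | hψ
    · exact hy2.mul_left x
    · exact (hx2 ψ hψ).mul_right y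

lemma trace_one {V : Type} [AddCommGroup V] [Module F V] [FiniteDimensional F V]
    (ρ : Representation F N V) (hρ : ρ.IsIrreducible) :
    ∃ x : F[N], LinearMap.trace F V (ρ.asAlgebraHom x) = 1 := by
  have := hρ
  have : Nontrivial V := IsSimpleModule.nontrivial F[N] ρ.asModule
  obtain ⟨v, hv⟩ := exists_ne (0 : V)
  obtain ⟨g, hg⟩ : ∃ g : V →ₗ[F] F, g v = 1 := by
    by_contra hcon
    apply hv
    rw [← Module.forall_dual_apply_eq_zero_iff F v]
    intro g
    by_contra hg
    exact hcon ⟨(g v)⁻¹ • g, by rw [LinearMap.smul_apply, smul_eq_mul, inv_mul_cancel₀ hg]⟩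
  obtain ⟨a, ha⟩ := burn (F := F) (A := F[N]) (V := ρ.asModule)
    ((ρ.asModuleEquiv.symm : V →ₗ[F] ρ.asModule) ∘ₗ (g.smulRight v) ∘ₗ
      (ρ.asModuleEquiv : ρ.asModule →ₗ[F] V))
  refine ⟨a, ?_⟩
  have h1 : ρ.asAlgebraHom a = g.smulRight v := by
    ext w
    rw [act, ha]
    simp
  rw [h1, LinearMap.trace_smulRight, hg]

omit [IsAlgClosed F] in
lemma expand [Fintype N] (x : F[N]) : ∃ a : N → F, x = ∑ g, MonoidAlgebra.single g (a g) := by
  classical
  induction x using MonoidAlgebra.induction_linear with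
  | zero => exact ⟨0, by simp⟩
  | add x y hx hy =>
    obtain ⟨a, ha⟩ := hx
    obtain ⟨b, hb⟩ := hy
    refine ⟨a + b, ?_⟩
    rw [ha, hb, ← Finset.sum_add_distrib]
    exact Finset.sum_congr rfl fun g _ => by rw [Pi.add_apply, MonoidAlgebra.single_add]
  | single m r =>
    refine ⟨Pi.single m r, ?_⟩
    rw [Finset.sum_eq_single m]
    · rw [Pi.single_eq_same]
    · intro g _ hg
      rw [Pi.single_eq_of_ne hg, MonoidAlgebra.single_zero]
    · intro h
      exact absurd (Finset.mem_univ m) h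

omit [IsAlgClosed F] in
lemma trace_expand [Fintype N] {V : Type} [AddCommGroup V] [Module F V] [FiniteDimensional F V]
    (ρ : Representation F N V) (a : N → F) :
    LinearMap.trace F V (ρ.asAlgebraHom (∑ g, MonoidAlgebra.single g (a g))) =
      ∑ g, a g * ρ.character g := by
  rw [map_sum, map_sum]
  refine Finset.sum_congr rfl fun g _ => ?_
  rw [asAlgebraHom_single, map_smul, smul_eq_mul]
  rfl

theorem linInd : LinearIndependent F (fun φ : {φ : N → F | IsIrrTrace φ} => φ.1) := by
  classical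
  haveI := Fintype.ofFinite N
  rw [linearIndependent_iff']
  intro s c hsum i hi
  obtain ⟨V, i1, i2, i3, ρ, hρ, hφ⟩ := i.2
  obtain ⟨x, hx1, hx2⟩ := manyK ρ hρ ((s.erase i).image fun φ => φ.1) (by
    intro ψ hψ
    obtain ⟨j, hj, rfl⟩ := Finset.mem_image.1 hψ
    refine ⟨j.2, fun h => (Finset.ne_of_mem_erase hj) (Subtype.ext ?_)⟩
    rw [hφ]
    exact h)
  obtain ⟨b, hb⟩ := trace_one ρ hρ
  obtain ⟨a, ha⟩ := expand (b * x)
  have h1 : ∑ g, a g * i.1 g = 1 := by
    rw [hφ, ← trace_expand, ← ha, map_mul, hx1, mul_one, hb]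
  have h2 : ∀ j ∈ s, j ≠ i → ∑ g, a g * j.1 g = 0 := by
    intro j hj hji
    obtain ⟨W, k1, k2, k3, σ, _, hσ, hk⟩ :=
      (hx2 j.1 (Finset.mem_image.2 ⟨j, Finset.mem_erase.2 ⟨hji, hj⟩, rfl⟩)).mul_left b
    rw [hσ, ← trace_expand, ← ha, hk, map_zero]
  have h3 : ∑ g, a g * (∑ j ∈ s, c j • j.1) g = 0 := by
    rw [hsum]
    simp
  have h4 : ∑ g, a g * (∑ j ∈ s, c j • j.1) g = ∑ j ∈ s, c j * ∑ g, a g * j.1 g := by
    simp only [Finset.sum_apply, Pi.smul_apply, smul_eq_mul, Finset.mul_sum]
    rw [Finset.sum_comm]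
    exact Finset.sum_congr rfl fun j _ => Finset.sum_congr rfl fun g _ => by ring
  rw [h4, Finset.sum_eq_single i (fun j hj hji => by rw [h2 j hj hji, mul_zero])
    (fun h => absurd hi h), h1, mul_one] at h3
  exact h3

end grp

theorem irr : S_IRR := by
  intro F _ _ N _ _
  exact ⟨linInd.setFinite, linInd⟩

end Pool.Agent.Y914.NV
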